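import Pool.Agent.Q157.DC.Stm

/-!
# Project DC (helper157): product Bernoulli spaces
-/

set_option autoImplicit false

open Finset

namespace Pool.Agent.Q182.DC

open Pool.Agent.Q157.DC

theorem sum_prod_bool {ι : Type} [Fintype ι] [DecidableEq ι] (g : ι → Bool → ℝ) :
    ∑ ω : ι → Bool, ∏ i, g i (ω i) = ∏ i, (g i true + g i false) := by
  have h := Finset.prod_univ_sum (fun _ : ι => (univ : Finset Bool)) g
  rw [Fintype.piFinset_univ] at h
  rw [← h]
  exact Finset.prod_congr rfl fun i _ => Fintype.sum_bool _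

theorem wt_nonneg {ι : Type} [Fintype ι] {r : ι → ℝ} (h : ∀ i, 0 ≤ r i ∧ r i ≤ 1) (ω : ι → Bool) :
    0 ≤ wt r ω := by
  refine Finset.prod_nonneg fun i _ => ?_
  split_ifs
  · exact (h i).1
  · linarith [(h i).2]

theorem wt_sum {ι : Type} [Fintype ι] [DecidableEq ι] (r : ι → ℝ) : ∑ ω, wt r ω = 1 := by
  have h := sum_prod_bool (fun i b => if b = true then r i else 1 - r i)
  unfold wt
  rw [h]
  refine Finset.prod_eq_one fun i _ => ?_
  simp

theorem basic : S_basic := by
  classical
  intro ι _ _ r h
  have h0 := wt_nonneg h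
  have hmono : ∀ A B : (ι → Bool) → Prop, (∀ ω, A ω → B ω) → Pr r A ≤ Pr r B := by
    intro A B hAB
    refine Finset.sum_le_sum fun ω _ => ?_
    by_cases hA : A ω
    · rw [if_pos hA, if_pos (hAB ω hA)]
    · rw [if_neg hA]
      split_ifs
      · exact h0 ω
      · exact le_rfl
  have hnn : ∀ A, 0 ≤ Pr r A := by
    intro A
    refine Finset.sum_nonneg fun ω _ => ?_
    split_ifs
    · exact h0 ω
    · exact le_rfl
  have hT : Pr r (fun _ => True) = 1 := by
    unfold Pr
    simp only [if_true]
    exact wt_sum r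
  have hor : ∀ A B : (ι → Bool) → Prop, Pr r (fun ω => A ω ∨ B ω) ≤ Pr r A + Pr r B := by
    intro A B
    unfold Pr
    rw [← Finset.sum_add_distrib]
    refine Finset.sum_le_sum fun ω _ => ?_
    by_cases hA : A ω
    · rw [if_pos (Or.inl hA), if_pos hA]
      split_ifs <;> linarith [h0 ω]
    · by_cases hB : B ω
      · rw [if_pos (Or.inr hB), if_neg hA, if_pos hB, zero_add]
      · rw [if_neg (fun h => h.elim hA hB), if_neg hA, if_neg hB, zero_add]
  refine ⟨h0, wt_sum r, fun A => ⟨hnn A, ?_⟩, hmono, fun A => ?_, hor, ?_, ?_⟩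
  · rw [← hT]
    exact hmono _ _ fun _ _ => trivial
  · rw [eq_sub_iff_add_eq, ← hT]
    unfold Pr
    rw [← Finset.sum_add_distrib]
    refine Finset.sum_congr rfl fun ω _ => ?_
    by_cases hA : A ω <;> simp [hA]
  · intro τ F A
    induction F using Finset.induction_on with
    | empty =>
      rw [Finset.sum_empty]
      refine le_of_eq ?_
      unfold Pr
      exact Finset.sum_eq_zero fun ω _ => if_neg (by simp)
    | insert a s ha ih =>
      rw [Finset.sum_insert ha]
      refine (hmono _ (fun ω => A a ω ∨ ∃ t ∈ s, A t ω) ?_).trans ((hor _ _).trans ?_)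
      · rintro ω ⟨t, ht, hA⟩
        rcases Finset.mem_insert.1 ht with rfl | ht
        · exact Or.inl hA
        · exact Or.inr ⟨t, ht, hA⟩
      · linarith
  · intro A f hf hA
    refine Finset.sum_le_sum fun ω _ => ?_
    by_cases h1 : A ω
    · rw [if_pos h1]
      exact le_mul_of_one_le_right (h0 ω) (hA ω h1)
    · rw [if_neg h1]
      exact mul_nonneg (h0 ω) (hf ω)

theorem cyl : S_cyl := by
  classical
  intro ι _ _ r S
  have h := sum_prod_bool (fun i b => if i ∈ S then (if b = true then r i else 0) else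
    (if b = true then r i else 1 - r i))
  have h1 : Pr r (fun ω => ∀ i ∈ S, ω i = true) = ∑ ω : ι → Bool, ∏ i,
      (if i ∈ S then (if ω i = true then r i else 0) else (if ω i = true then r i else 1 - r i)) := by
    refine Finset.sum_congr rfl fun ω _ => ?_
    by_cases hω : ∀ i ∈ S, ω i = true
    · rw [if_pos hω]
      refine Finset.prod_congr rfl fun i _ => ?_
      by_cases hi : i ∈ S
      · rw [if_pos hi, if_pos (hω i hi), if_pos (hω i hi)]
      · rw [if_neg hi]
    · rw [if_neg hω]
      push Not at hω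
      obtain ⟨i, hi, hωi⟩ := hω
      symm
      refine Finset.prod_eq_zero (Finset.mem_univ i) ?_
      rw [if_pos hi, if_neg hωi]
  rw [h1, h, ← Finset.prod_filter_mul_prod_filter_not univ (fun i => i ∈ S)]
  have h2 : ∏ i ∈ univ.filter (fun i => i ∉ S), ((if i ∈ S then (if true = true then r i else 0) else
      (if true = true then r i else 1 - r i)) + (if i ∈ S then (if false = true then r i else 0) else
      (if false = true then r i else 1 - r i))) = 1 := by
    refine Finset.prod_eq_one fun i hi => ?_
    rw [if_neg (Finset.mem_filter.1 hi).2, if_neg (Finset.mem_filter.1 hi).2]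
    simp
  rw [h2, mul_one]
  refine Finset.prod_congr (by ext; simp) fun i hi => ?_
  rw [if_pos hi, if_pos hi]
  simp

end Pool.Agent.Q182.DC
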